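import Pool.Agent.H80.Race2

open Pool.Agent.H80.Race

theorem Pool.Agent.Results.MP_8d137a_pr.Cycle.result :
    ∃ s k : ℕ, 2 ≤ s ∧ 2 ≤ k ∧ ∀ ε : ℝ, 0 < ε → ∃ p : Fin s → ℝ,
      (∀ i, 0 < p i) ∧ ∑ i, p i = 1 ∧ (∀ i, |p i - 1 / s| < ε) ∧
      ∃ A B C : List (Fin s), A.length = k ∧ B.length = k ∧ C.length = k ∧
        1 / 2 < beats p A B ∧ 1 / 2 < beats p B C ∧ 1 / 2 < beats p C A :=
  Pool.Agent.H80.Race.main
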